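import Pool.Agent.Results.MP_252f3f_nt.AlmostAllMultiples
import Pool.Agent.U513.AP.IntTuples

/-!
# Jeśmanowicz's conjecture for the Pythagorean triples given by Diophantine approximations

The starting file bounds the number of the primitive Pythagorean triples with hypotenuse at most `X` for which the conjecture, for the
triple or one of its multiples, fails. Here: for all points `α` outside of a set of small Hausdorff dimension, the conjecture holds for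
the triples `(m ^ 2 - n ^ 2, 2 m n, m ^ 2 + n ^ 2)` and all their multiples, where `(m, n)` are the first two entries of `G (k, u) + c`,
`G` ANY nonsingular integral matrix, `c` any integral vector, at ANY approximation `(k, u)` of `α` with large `k`; for example for
`m = q`, `n = p` for all the convergents `p / q` of all real numbers outside of a set of dimension at most `0.99`.
-/

set_option autoImplicit false

open Finset Filter MeasureTheory Topology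

namespace Pool.Agent.Results.MP_252f3f_nt.Approximations

open Pool.Agent.U513.AP

/-- Jeśmanowicz's conjecture for `(a, b, c)` and all its multiples. -/
def Jes (a b c : ℕ) : Prop :=
  ∀ k x y z : ℕ, 0 < k → 0 < x → 0 < y → 0 < z → (k * a) ^ x + (k * b) ^ y = (k * c) ^ z → x = 2 ∧ y = 2 ∧ z = 2

/-- the exceptional pairs -/
def Exc : Set (Fin 2 → ℤ) :=
  {s | ∃ m n : ℕ, (m : ℤ) = s 0 ∧ (n : ℤ) = s 1 ∧ 0 < n ∧ n < m ∧ Nat.Coprime (m ^ 2 - n ^ 2) (2 * m * n) ∧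
    ¬ Jes (m ^ 2 - n ^ 2) (2 * m * n) (m ^ 2 + n ^ 2)}

lemma count : ∃ C : ℝ, ∀ T : ℕ, 1 ≤ T →
    ({s : Fin 2 → ℤ | (∀ i, |s i| ≤ (T : ℤ)) ∧ s ∈ Exc}.ncard : ℝ) ≤ C * (T : ℝ) ^ (((2 : ℕ) : ℝ) - 1 / 50) := by
  classical
  obtain ⟨C, hC⟩ := AlmostAllMultiples.result
  refine ⟨max C 0 * 2 ^ (99 / 100 : ℝ), fun T hT => ?_⟩
  have hT0 : (0 : ℝ) < T := by exact_mod_cast hT
  have hTT : 0 < T ^ 2 := pow_pos (by omega) 2
  have h1 := hC (2 * T ^ 2) (by omega)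
  have hfin : {p : ℕ × ℕ × ℕ | p.2.2 ≤ 2 * T ^ 2 ∧ 0 < p.1 ∧ 0 < p.2.1 ∧ Nat.Coprime p.1 p.2.1 ∧
      p.1 ^ 2 + p.2.1 ^ 2 = p.2.2 ^ 2 ∧ ∃ k x y z : ℕ, 0 < k ∧ 0 < x ∧ 0 < y ∧ 0 < z ∧
        ¬ (x = 2 ∧ y = 2 ∧ z = 2) ∧ (k * p.1) ^ x + (k * p.2.1) ^ y = (k * p.2.2) ^ z}.Finite := by
    refine Set.Finite.subset ((Set.finite_Iic (2 * T ^ 2)).prod ((Set.finite_Iic (2 * T ^ 2)).prod
      (Set.finite_Iic (2 * T ^ 2)))) ?_
    rintro ⟨a, b, c⟩ ⟨g1, -, -, -, g2, -⟩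
    dsimp only at g1 g2
    have ha : a ≤ c := by
      by_contra hcon
      push Not at hcon
      nlinarith [sq_nonneg b]
    have hb : b ≤ c := by
      by_contra hcon
      push Not at hcon
      nlinarith [sq_nonneg a]
    exact ⟨ha.trans g1, hb.trans g1, g1⟩
  have h2 : {s : Fin 2 → ℤ | (∀ i, |s i| ≤ (T : ℤ)) ∧ s ∈ Exc}.ncard ≤
      {p : ℕ × ℕ × ℕ | p.2.2 ≤ 2 * T ^ 2 ∧ 0 < p.1 ∧ 0 < p.2.1 ∧ Nat.Coprime p.1 p.2.1 ∧
      p.1 ^ 2 + p.2.1 ^ 2 = p.2.2 ^ 2 ∧ ∃ k x y z : ℕ, 0 < k ∧ 0 < x ∧ 0 < y ∧ 0 < z ∧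
        ¬ (x = 2 ∧ y = 2 ∧ z = 2) ∧ (k * p.1) ^ x + (k * p.2.1) ^ y = (k * p.2.2) ^ z}.ncard := by
    refine Set.ncard_le_ncard_of_injOn (fun s => ((s 0).toNat ^ 2 - (s 1).toNat ^ 2, 2 * (s 0).toNat * (s 1).toNat,
      (s 0).toNat ^ 2 + (s 1).toNat ^ 2)) ?_ ?_ hfin
    · rintro s ⟨hs, m, n, hm, hn, hn0, hnm, hco, hJ⟩
      have hm' : (s 0).toNat = m := by rw [← hm]; exact Int.toNat_natCast m
      have hn' : (s 1).toNat = n := by rw [← hn]; exact Int.toNat_natCast n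
      have hmT : m ≤ T := by
        have := hs 0
        rw [← hm, Nat.abs_cast] at this
        exact_mod_cast this
      have hsq : n ^ 2 < m ^ 2 := Nat.pow_lt_pow_left hnm (by norm_num)
      have hmm : m ^ 2 ≤ T ^ 2 := Nat.pow_le_pow_left hmT 2
      simp only [Set.mem_ofPred_eq, hm', hn']
      unfold Jes at hJ
      push Not at hJ
      obtain ⟨k, x, y, z, hk, hx, hy, hz, heq, hne⟩ := hJ
      refine ⟨by omega, by omega, Nat.mul_pos (Nat.mul_pos (by norm_num) (by omega)) hn0, hco, ?_, k, x, y, z, hk, hx, hy, hz, fun h => hne h.1 h.2.1 h.2.2, heq⟩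
      zify [hsq.le]
      ring
    · rintro s ⟨-, m, n, hm, hn, hn0, hnm, -, -⟩ s' ⟨-, m', n', hm', hn', hn0', hnm', -, -⟩ h
      simp only [Prod.mk.injEq] at h
      rw [← hm, ← hn, ← hm', ← hn'] at h
      simp only [Int.toNat_natCast] at h
      obtain ⟨h3, -, h4⟩ := h
      have hsq : n ^ 2 < m ^ 2 := Nat.pow_lt_pow_left hnm (by norm_num)
      have hsq' : n' ^ 2 < m' ^ 2 := Nat.pow_lt_pow_left hnm' (by norm_num)
      have e1 : m ^ 2 = m' ^ 2 := by omega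
      have e2 : n ^ 2 = n' ^ 2 := by omega
      have e3 : m = m' := Nat.pow_left_injective (by norm_num : (2 : ℕ) ≠ 0) e1
      have e4 : n = n' := Nat.pow_left_injective (by norm_num : (2 : ℕ) ≠ 0) e2
      funext i
      refine Fin.cases ?_ (fun i => ?_) i
      · rw [← hm, ← hm', e3]
      · have : i = 0 := Subsingleton.elim _ _
        rw [this]
        show s 1 = s' 1
        rw [← hn, ← hn', e4]
  refine (Nat.cast_le.2 h2).trans (h1.trans ?_)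
  have h3 : (((2 * T ^ 2 : ℕ) : ℝ)) ^ (99 / 100 : ℝ) = 2 ^ (99 / 100 : ℝ) * (T : ℝ) ^ (((2 : ℕ) : ℝ) - 1 / 50) := by
    push_cast
    rw [Real.mul_rpow (by norm_num) (by positivity), ← Real.rpow_natCast (T : ℝ) 2, ← Real.rpow_mul hT0.le]
    congr 2
    norm_num
  rw [h3, mul_assoc]
  exact mul_le_mul_of_nonneg_right (le_max_left _ _) (by positivity)

/-- **Jeśmanowicz's conjecture at all approximations of almost all points.** -/
theorem result (d : ℕ) (hd : 2 ≤ d + 1) (τ : ℝ) (hτ : 0 ≤ τ) (γ : Fin d → ℝ) :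
    ∃ E : Set (Fin d → ℝ), dimH E ≤ ENNReal.ofReal ((d + 1 - 1 / 50) / (1 + τ)) ∧
      (49 / 50 < d * τ → volume E = 0) ∧
      ∀ α, α ∉ E → ∀ G : Matrix (Fin (d + 1)) (Fin (d + 1)) ℤ, G.det ≠ 0 → ∀ c : Fin (d + 1) → ℤ,
        ∀ᶠ k : ℕ in atTop, ∀ u : Fin d → ℤ, (∀ i, |(k : ℝ) * α i - γ i - u i| ≤ (k : ℝ) ^ (-τ)) → ∀ m n : ℕ,
          (m : ℤ) = (G.mulVec (Fin.cons (k : ℤ) u) + c) (Fin.castLE hd 0) →
          (n : ℤ) = (G.mulVec (Fin.cons (k : ℤ) u) + c) (Fin.castLE hd 1) →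
          0 < n → n < m → Nat.Coprime (m ^ 2 - n ^ 2) (2 * m * n) → Jes (m ^ 2 - n ^ 2) (2 * m * n) (m ^ 2 + n ^ 2) := by
  classical
  obtain ⟨C, hC⟩ := count
  have : Countable (Matrix (Fin (d + 1)) (Fin (d + 1)) ℤ) :=
    inferInstanceAs (Countable (Fin (d + 1) → Fin (d + 1) → ℤ))
  have hd0 : (0 : ℝ) ≤ d := Nat.cast_nonneg _
  obtain ⟨E, hE, h⟩ := int_law (d := d) (a := (d : ℝ) + 1 - 1 / 50) (by linarith)
    (ι := {G : Matrix (Fin (d + 1)) (Fin (d + 1)) ℤ // G.det ≠ 0} × (Fin (d + 1) → ℤ))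
    (fun i s => first hd i.1.1 i.2 s ∈ Exc)
    (fun i => count_first hd hC i.1.1 i.1.2 i.2) hτ γ
  refine ⟨E, hE, fun hlt => ?_, ?_⟩
  · refine null_of_dim (by omega) hE ?_
    rw [div_lt_iff₀ (by linarith)]
    linarith
  · intro α hα G hG c
    filter_upwards [h α hα (⟨G, hG⟩, c)] with k hk u hu m n hm hn hn0 hnm hco
    by_contra hcon
    exact hk u hu ⟨m, n, hm, hn, hn0, hnm, hco, hcon⟩

end Pool.Agent.Results.MP_252f3f_nt.Approximations
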